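import Mathlib

/-!
# Combinatorial core of the counterexample for MP_6dddf9_gt (S13350)

Helper file (author helper77).
-/

set_option autoImplicit false

namespace Pool.Agent.Lib77.ML

open Set

/-- The set of countable ordinals, as a type in `Type`. -/
abbrev Om : Type := (Cardinal.aleph 1).ord.ToType

theorem mk_Om : Cardinal.mk Om = Cardinal.aleph 1 := Cardinal.mk_ord_toType _

theorem countable_Iio_Om (a : Om) : (Set.Iio a).Countable := by
  have h : Cardinal.mk (Set.Iio a) < Cardinal.aleph 1 := by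
    have h := Cardinal.mk_Iio_lt (α := Om) a (by rw [mk_Om]; simp)
    rwa [mk_Om] at h
  rw [← Cardinal.le_aleph0_iff_set_countable]
  rwa [← Order.lt_succ_iff, Cardinal.succ_aleph0]

theorem not_countable_Om : ¬ (Set.univ : Set Om).Countable := by
  rw [← Cardinal.le_aleph0_iff_set_countable, Cardinal.mk_univ, mk_Om]
  exact not_le.2 Cardinal.aleph0_lt_aleph_one

instance : Uncountable Om := by
  rw [← not_countable_iff, ← Set.countable_univ_iff]
  exact not_countable_Om

instance : Infinite Om := inferInstance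

theorem exists_strict_bound {B : Set Om} (hB : B.Countable) : ∃ a : Om, ∀ b ∈ B, b < a := by
  by_contra hcon
  push Not at hcon
  apply not_countable_Om
  have h1 : (⋃ b ∈ B, Set.Iic b).Countable := by
    refine hB.biUnion fun b _ => ?_
    rw [← Set.Iio_insert]
    exact (countable_Iio_Om b).insert b
  refine h1.mono fun a _ => ?_
  obtain ⟨b, hb, hab⟩ := hcon a
  exact Set.mem_biUnion hb hab

/-- A colouring of `Om` by naturals with all fibres uncountable. -/
theorem exists_colour : ∃ c : Om → ℕ, ∀ n, ¬ (c ⁻¹' {n}).Countable := by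
  have h : Cardinal.mk Om = Cardinal.mk (Om × ℕ) := by
    rw [Cardinal.mk_prod, Cardinal.lift_id, Cardinal.lift_id, Cardinal.mk_nat,
      Cardinal.mul_aleph0_eq (Cardinal.aleph0_le_mk Om)]
  obtain ⟨e⟩ := Cardinal.eq.1 h
  refine ⟨fun a => (e a).2, fun n hn => not_countable_Om ?_⟩
  have : (Set.univ : Set Om) ⊆ (fun a => (e a).1) '' ((fun a => (e a).2) ⁻¹' {n}) := by
    intro a _
    refine ⟨e.symm (a, n), by simp, by simp⟩
  exact (hn.image _).mono this

/-- Recursion along `Om`. -/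
theorem exists_rec {X : Type} (P : Om → X → Prop) (Q : X → X → Prop)
    (h : ∀ (a : Om) (B : Set X), B.Countable → ∃ y, P a y ∧ ∀ x ∈ B, Q x y) :
    ∃ y : Om → X, ∀ a, P a (y a) ∧ ∀ b < a, Q (y b) (y a) := by
  classical
  have hc : ∀ (a : Om) (g : ∀ b : Om, b < a → X), {x | ∃ b, ∃ hb : b < a, g b hb = x}.Countable := by
    intro a g
    have : {x | ∃ b, ∃ hb : b < a, g b hb = x} = Set.range (fun b : Set.Iio a => g b.1 b.2) := by
      ext x
      constructor
      · rintro ⟨b, hb, rfl⟩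
        exact ⟨⟨b, hb⟩, rfl⟩
      · rintro ⟨b, rfl⟩
        exact ⟨b.1, b.2, rfl⟩
    rw [this]
    have : Countable (Set.Iio a) := (countable_Iio_Om a).to_subtype
    exact Set.countable_range _
  have wf : WellFounded ((· < ·) : Om → Om → Prop) := wellFounded_lt
  let F : ∀ a : Om, (∀ b : Om, b < a → X) → X := fun a g =>
    Classical.choose (h a {x | ∃ b, ∃ hb : b < a, g b hb = x} (hc a g))
  have hF : ∀ (a : Om) (g : ∀ b : Om, b < a → X),
      P a (F a g) ∧ ∀ x ∈ {x | ∃ b, ∃ hb : b < a, g b hb = x}, Q x (F a g) := fun a g =>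
    Classical.choose_spec (h a {x | ∃ b, ∃ hb : b < a, g b hb = x} (hc a g))
  refine ⟨wf.fix F, fun a => ?_⟩
  have h1 := hF a (fun b _ => wf.fix F b)
  rw [← WellFounded.fix_eq wf F a] at h1
  exact ⟨h1.1, fun b hb => h1.2 _ ⟨b, hb, rfl⟩⟩

/-- An uncountable set splits into two uncountable disjoint parts. -/
theorem exists_split {I : Type} {A : Set I} (hA : ¬ A.Countable) :
    ∃ B C : Set I, B ⊆ A ∧ C ⊆ A ∧ Disjoint B C ∧ ¬ B.Countable ∧ ¬ C.Countable := by
  have hinf : A.Infinite := fun h => hA h.countable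
  obtain ⟨B, C, hU, hd, hcard⟩ := hinf.exists_union_disjoint_cardinal_eq_of_infinite
  have hiff : B.Countable ↔ C.Countable := by
    rw [← Cardinal.le_aleph0_iff_set_countable, ← Cardinal.le_aleph0_iff_set_countable, hcard]
  have hB : ¬ B.Countable := by
    intro hB
    exact hA (hU ▸ hB.union (hiff.1 hB))
  exact ⟨B, C, hU ▸ Set.subset_union_left, hU ▸ Set.subset_union_right, hd, hB,
    fun hC => hB (hiff.2 hC)⟩

section core

variable {X I : Type} {T : I → Set X}

/-- Halving for one ultrafilter. -/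
theorem halve_one (hT : ∀ i j, i ≠ j → Disjoint (T i) (T j)) (U : Ultrafilter X)
    (A : ℕ → Set I) (hd : ∀ m n, m ≠ n → Disjoint (A m) (A n))
    (hA : ∀ m, ¬ (A m).Countable) :
    ∃ A' : ℕ → Set I, (∀ m, A' m ⊆ A m) ∧ (∀ m, ¬ (A' m).Countable) ∧
      (⋃ m, ⋃ i ∈ A' m, T i) ∉ U := by
  choose B C hB hC hBC hBu hCu using fun m => exists_split (hA m)
  by_cases h : (⋃ m, ⋃ i ∈ B m, T i) ∈ U
  · refine ⟨C, hC, hCu, fun h2 => ?_⟩
    have h3 := Filter.inter_mem h h2
    have h4 : (⋃ m, ⋃ i ∈ B m, T i) ∩ (⋃ m, ⋃ i ∈ C m, T i) = ∅ := by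
      rw [Set.eq_empty_iff_forall_notMem]
      rintro x ⟨hx1, hx2⟩
      simp only [Set.mem_iUnion, exists_prop] at hx1 hx2
      obtain ⟨m, i, hi, hxi⟩ := hx1
      obtain ⟨n, j, hj, hxj⟩ := hx2
      by_cases hij : i = j
      · subst hij
        by_cases hmn : m = n
        · subst hmn
          exact Set.disjoint_left.1 (hBC m) hi hj
        · exact Set.disjoint_left.1 (hd m n hmn) (hB m hi) (hC n hj)
      · exact Set.disjoint_left.1 (hT i j hij) hxi hxj
    rw [h4] at h3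
    exact Ultrafilter.empty_notMem h3
  · exact ⟨B, hB, hBu, h⟩

/-- Halving for finitely many ultrafilters. -/
theorem halve_finset (hT : ∀ i j, i ≠ j → Disjoint (T i) (T j)) (F : Finset (Ultrafilter X))
    (A : ℕ → Set I) (hd : ∀ m n, m ≠ n → Disjoint (A m) (A n))
    (hA : ∀ m, ¬ (A m).Countable) :
    ∃ A' : ℕ → Set I, (∀ m, A' m ⊆ A m) ∧ (∀ m, ¬ (A' m).Countable) ∧
      ∀ U ∈ F, (⋃ m, ⋃ i ∈ A' m, T i) ∉ U := by
  classical
  induction F using Finset.induction_on with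
  | empty => exact ⟨A, fun m => subset_rfl, hA, by simp⟩
  | insert U F _ ih =>
    obtain ⟨A1, h1, h2, h3⟩ := ih
    obtain ⟨A2, h4, h5, h6⟩ := halve_one hT U A1
      (fun m n hmn => (hd m n hmn).mono (h1 m) (h1 n)) h2
    refine ⟨A2, fun m => (h4 m).trans (h1 m), h5, fun V hV => ?_⟩
    rcases Finset.mem_insert.1 hV with rfl | hV
    · exact h6
    · intro hV2
      apply h3 V hV
      refine Filter.mem_of_superset hV2 ?_
      refine Set.iUnion_mono fun m => ?_
      exact Set.biUnion_subset_biUnion_left (h4 m)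

/-- Only finitely many `i` are bad for one uncountable set. -/
theorem bad_finite (hT : ∀ i j, i ≠ j → Disjoint (T i) (T j))
    (F : I → Finset (Ultrafilter X)) {A : Set I} (hA : ¬ A.Countable) :
    {i | (A \ {j | ∃ U ∈ F j, T i ∈ U}).Countable}.Finite := by
  classical
  by_contra hinf
  have hinf : {i | (A \ {j | ∃ U ∈ F j, T i ∈ U}).Countable}.Infinite := hinf
  obtain ⟨f, hf⟩ : ∃ f : ℕ → I, Function.Injective f ∧
      ∀ k, f k ∈ {i | (A \ {j | ∃ U ∈ F j, T i ∈ U}).Countable} := by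
    refine ⟨fun k => (hinf.natEmbedding _ k : I), ?_, fun k => (hinf.natEmbedding _ k).2⟩
    intro k l hkl
    exact (hinf.natEmbedding _).injective (Subtype.ext hkl)
  obtain ⟨hinj, hf⟩ := hf
  have h1 : (⋃ k, (A \ {j | ∃ U ∈ F j, T (f k) ∈ U})).Countable :=
    Set.countable_iUnion fun k => hf k
  obtain ⟨j, hjA, hj⟩ : ∃ j ∈ A, j ∉ (⋃ k, (A \ {j | ∃ U ∈ F j, T (f k) ∈ U})) := by
    by_contra hcon
    push Not at hcon
    exact hA (h1.mono hcon)
  have h2 : ∀ k, ∃ U ∈ F j, T (f k) ∈ U := by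
    intro k
    by_contra hk
    exact hj (Set.mem_iUnion.2 ⟨k, hjA, hk⟩)
  choose V hV hTV using h2
  obtain ⟨k, l, hkl, hVkl⟩ : ∃ k l, k ≠ l ∧ V k = V l := by
    have hfin : Finite (F j : Set (Ultrafilter X)) := (F j).finite_toSet
    obtain ⟨k, l, hkl, h⟩ := Finite.exists_ne_map_eq_of_infinite
      (fun k : ℕ => (⟨V k, hV k⟩ : (F j : Set (Ultrafilter X))))
    exact ⟨k, l, hkl, congrArg Subtype.val h⟩
  have h3 : T (f k) ∩ T (f l) ∈ V k := Filter.inter_mem (hTV k) (hVkl ▸ hTV l)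
  rw [Set.disjoint_iff_inter_eq_empty.1 (hT _ _ (fun h => hkl (hinj h)))] at h3
  exact Ultrafilter.empty_notMem h3

/-- One step of the selection. -/
theorem step (hT : ∀ i j, i ≠ j → Disjoint (T i) (T j))
    (F : I → Finset (Ultrafilter X)) (k : ℕ)
    (A : ℕ → Set I) (hd : ∀ m n, m ≠ n → Disjoint (A m) (A n))
    (hA : ∀ m, ¬ (A m).Countable) :
    ∃ i ∈ A k, ∃ A' : ℕ → Set I, (∀ m, A' m ⊆ A m) ∧ (∀ m, ¬ (A' m).Countable) ∧
      (∀ m, ∀ j ∈ A' m, ∀ U ∈ F j, T i ∉ U) ∧
      ∀ U ∈ F i, (⋃ m, ⋃ j ∈ A' m, T j) ∉ U := by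
  have h1 : (⋃ m, {i | (A m \ {j | ∃ U ∈ F j, T i ∈ U}).Countable}).Countable :=
    Set.countable_iUnion fun m => (bad_finite hT F (hA m)).countable
  obtain ⟨i, hi, hgood⟩ : ∃ i ∈ A k,
      i ∉ (⋃ m, {i | (A m \ {j | ∃ U ∈ F j, T i ∈ U}).Countable}) := by
    by_contra hcon
    push Not at hcon
    exact hA k (h1.mono hcon)
  have hgood' : ∀ m, ¬ (A m \ {j | ∃ U ∈ F j, T i ∈ U}).Countable := by
    intro m hm
    exact hgood (Set.mem_iUnion.2 ⟨m, hm⟩)
  obtain ⟨A', h2, h3, h4⟩ := halve_finset hT (F i) (fun m => A m \ {j | ∃ U ∈ F j, T i ∈ U})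
    (fun m n hmn => (hd m n hmn).mono Set.sdiff_subset Set.sdiff_subset) hgood'
  refine ⟨i, hi, A', fun m => (h2 m).trans Set.sdiff_subset, h3, ?_, h4⟩
  intro m j hj U hU hTU
  exact (h2 m hj).2 ⟨U, hU, hTU⟩

/-- The combinatorial core. -/
theorem core (hT : ∀ i j, i ≠ j → Disjoint (T i) (T j))
    (F : I → Finset (Ultrafilter X)) (hF : ∀ i, ∀ U ∈ F i, T i ∉ U)
    (A : ℕ → Set I) (hd : ∀ m n, m ≠ n → Disjoint (A m) (A n))
    (hA : ∀ m, ¬ (A m).Countable) :
    ∃ s : ℕ → I, (∀ m, s m ∈ A m) ∧ ∀ m, ∀ U ∈ F (s m), (⋃ j, T (s j)) ∉ U := by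
  classical
  let St : Type := {A : ℕ → Set I // (∀ m n, m ≠ n → Disjoint (A m) (A n)) ∧
    ∀ m, ¬ (A m).Countable}
  have hstep : ∀ (k : ℕ) (a : St), ∃ (i : I) (a' : St), i ∈ a.1 k ∧ (∀ m, a'.1 m ⊆ a.1 m) ∧
      (∀ m, ∀ j ∈ a'.1 m, ∀ U ∈ F j, T i ∉ U) ∧
      ∀ U ∈ F i, (⋃ m, ⋃ j ∈ a'.1 m, T j) ∉ U := by
    intro k a
    obtain ⟨i, hi, A', h1, h2, h3, h4⟩ := step hT F k a.1 a.2.1 a.2.2
    exact ⟨i, ⟨A', fun m n hmn => (a.2.1 m n hmn).mono (h1 m) (h1 n), h2⟩, hi, h1, h3, h4⟩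
  choose pick next h1 h2 h3 h4 using hstep
  let seq : ℕ → St := fun n => Nat.rec ⟨A, hd, hA⟩ (fun k a => next k a) n
  have hseq0 : seq 0 = ⟨A, hd, hA⟩ := rfl
  have hseqS : ∀ k, seq (k + 1) = next k (seq k) := fun k => rfl
  have hmono : ∀ k l, k ≤ l → ∀ m, (seq l).1 m ⊆ (seq k).1 m := by
    intro k l hkl
    induction l, hkl using Nat.le_induction with
    | base => exact fun m => subset_rfl
    | succ l _ ih =>
      intro m
      rw [hseqS]
      exact (h2 l (seq l) m).trans (ih m)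
  refine ⟨fun k => pick k (seq k), fun m => ?_, fun k U hU hmem => ?_⟩
  · exact hmono 0 m (Nat.zero_le m) m (h1 m (seq m))
  · -- decompose the union
    have hsub : (⋃ j, T (pick j (seq j))) ⊆
        ((⋃ j ∈ Finset.range k, T (pick j (seq j))) ∪ T (pick k (seq k))) ∪
          (⋃ m, ⋃ j ∈ (seq (k+1)).1 m, T j) := by
      intro x hx
      obtain ⟨j, hj⟩ := Set.mem_iUnion.1 hx
      rcases lt_trichotomy j k with hjk | hjk | hjk
      · left; left
        simp only [Set.mem_iUnion]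
        exact ⟨j, Finset.mem_range.2 hjk, hj⟩
      · left; right
        rw [← hjk]
        exact hj
      · right
        simp only [Set.mem_iUnion]
        exact ⟨j, pick j (seq j), hmono (k+1) j hjk j (h1 j (seq j)), hj⟩
    have h5 := Filter.mem_of_superset hmem hsub
    rcases Ultrafilter.union_mem_iff.1 h5 with h5 | h5
    · rcases Ultrafilter.union_mem_iff.1 h5 with h5 | h5
      · have h6 : ∃ j ∈ (Finset.range k : Set ℕ), T (pick j (seq j)) ∈ U := by
          have := (Ultrafilter.finite_biUnion_mem_iff (Finset.finite_toSet (Finset.range k))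
            (s := fun j => T (pick j (seq j))) (f := U)).1 (by simpa using h5)
          exact this
        obtain ⟨j, hj, hjU⟩ := h6
        have hjk : j < k := by simpa using hj
        have h7 : pick k (seq k) ∈ (next j (seq j)).1 k := by
          rw [← hseqS]
          exact hmono (j+1) k hjk k (h1 k (seq k))
        exact h3 j (seq j) k _ h7 U hU hjU
      · exact hF _ U hU h5
    · rw [hseqS] at h5
      exact h4 k (seq k) U hU h5

end core

end Pool.Agent.Lib77.ML
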