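import Pool.Agent.Lib77.MetaLindelofCore

/-!
# The counterexample space for MP_6dddf9_gt (S13350)

Helper file (author helper77).

Points are built by an inductive type: a `leaf` with a rank and a label, or a `node` with a rank, a
label and a countable family of parents.  `up x` is the countable set of hereditary parents of `x`
(including `x`) of rank above `x`.  The space is embedded in `C_p` of the space of ultrafilters on
the set of points, `x` being sent to the indicator of the clopen set `{U | up x ∈ U}`.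
-/

set_option autoImplicit false

namespace Pool.Agent.Lib77.ML

open Set Topology

/-- Points. -/
inductive Pt : Type
  | leaf : Om → Om → Pt
  | node : Om → Om → (ℕ → Pt) → Pt

namespace Pt

/-- The rank of a point. -/
def rk : Pt → Om
  | leaf r _ => r
  | node r _ _ => r

/-- The countable set of ancestors. -/
def up : Pt → Set Pt
  | leaf r l => {leaf r l}
  | node r l p => {node r l p} ∪ {z | r < rk z ∧ ∃ n, z ∈ up (p n)}

theorem mem_up_self (x : Pt) : x ∈ up x := by
  cases x with
  | leaf r l => simp [up]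
  | node r l p => simp [up]

theorem rk_of_mem_up {x z : Pt} (h : z ∈ up x) : z = x ∨ rk x < rk z := by
  cases x with
  | leaf r l => left; simpa [up] using h
  | node r l p =>
    rw [up] at h
    rcases h with h | h
    · left; exact h
    · right; exact h.1

theorem rk_le_of_mem_up {x z : Pt} (h : z ∈ up x) : rk x ≤ rk z := by
  rcases rk_of_mem_up h with rfl | h
  · exact le_rfl
  · exact h.le

theorem up_subset {x z : Pt} (h : z ∈ up x) : up z ⊆ up x := by
  induction x generalizing z with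
  | leaf r l =>
    have : z = leaf r l := by simpa [up] using h
    rw [this]
  | node r l p ih =>
    rw [up] at h
    rcases h with h | h
    · rw [Set.mem_singleton_iff.1 h]
    · obtain ⟨h1, n, hn⟩ := h
      intro w hw
      rw [up]
      right
      exact ⟨h1.trans_le (rk_le_of_mem_up hw), n, ih n hn hw⟩

theorem countable_up (x : Pt) : (up x).Countable := by
  induction x with
  | leaf r l => rw [up]; exact Set.countable_singleton _
  | node r l p ih =>
    rw [up]
    refine (Set.countable_singleton _).union ?_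
    refine (Set.countable_iUnion fun n => ih n).mono ?_
    rintro z ⟨_, n, hn⟩
    exact Set.mem_iUnion.2 ⟨n, hn⟩

theorem up_injective : Function.Injective up := by
  intro x y h
  have h1 : x ∈ up y := h ▸ mem_up_self x
  have h2 : y ∈ up x := h.symm ▸ mem_up_self y
  rcases rk_of_mem_up h1 with h1 | h1
  · exact h1
  · rcases rk_of_mem_up h2 with h2 | h2
    · exact h2.symm
    · exact absurd h1 h2.asymm

open Classical in
/-- The embedding in `C_p (Ultrafilter Pt)`. -/
noncomputable def emb (x : Pt) (U : Ultrafilter Pt) : ℝ := if up x ∈ U then 1 else 0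

theorem continuous_emb (x : Pt) : Continuous (emb x) := by
  classical
  have h : IsClopen {U : Ultrafilter Pt | up x ∈ U} :=
    ⟨ultrafilter_isClosed_basic _, ultrafilter_isOpen_basic _⟩
  have : emb x = Set.indicator {U : Ultrafilter Pt | up x ∈ U} (fun _ => 1) := by
    ext U
    simp [emb, Set.indicator]
  rw [this]
  exact continuous_const.indicator (by
    intro a ha
    rw [h.frontier_eq] at ha
    exact absurd ha (Set.notMem_empty a))

theorem emb_injective : Function.Injective emb := by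
  intro x y h
  apply up_injective
  ext z
  have h1 := congrFun h (pure z)
  have h2 : ∀ w : Pt, up w ∈ (pure z : Ultrafilter Pt) ↔ z ∈ up w := fun w => Iff.rfl
  simp only [emb, h2] at h1
  by_cases hx : z ∈ up x <;> by_cases hy : z ∈ up y <;> simp_all

/-- The topology of the counterexample. -/
noncomputable instance : TopologicalSpace Pt := TopologicalSpace.induced emb inferInstance

theorem isEmbedding_emb : IsEmbedding emb := ⟨⟨rfl⟩, emb_injective⟩

theorem isOpen_tU (U : Ultrafilter Pt) : IsOpen {x : Pt | up x ∈ U} := by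
  have h1 : Continuous fun x : Pt => emb x U :=
    (continuous_apply U).comp isEmbedding_emb.continuous
  have h2 : {x : Pt | up x ∈ U} = (fun x : Pt => emb x U) ⁻¹' Set.Ioi (1/2) := by
    ext x
    by_cases h : up x ∈ U
    · simp [emb, h]; norm_num
    · simp [emb, h]
  rw [h2]
  exact isOpen_Ioi.preimage h1

/-- `down y` is the basic neighbourhood of `y`. -/
def down (y : Pt) : Set Pt := {x | y ∈ up x}

theorem isOpen_down (y : Pt) : IsOpen (down y) := isOpen_tU (pure y)

theorem mem_down_self (y : Pt) : y ∈ down y := mem_up_self y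

/-- Basic neighbourhoods. -/
theorem exists_basic {O : Set Pt} (hO : IsOpen O) {y : Pt} (hy : y ∈ O) :
    ∃ F : Finset (Ultrafilter Pt), (∀ U ∈ F, up y ∉ U) ∧
      ∀ x ∈ down y, (∀ U ∈ F, up x ∉ U) → x ∈ O := by
  classical
  obtain ⟨V, hV, rfl⟩ := isOpen_induced_iff.1 hO
  obtain ⟨I, u, hu, hIu⟩ := isOpen_pi_iff.1 hV (emb y) hy
  refine ⟨I.filter (fun U => up y ∉ U), fun U hU => (Finset.mem_filter.1 hU).2, ?_⟩
  intro x hx hxF
  apply hIu
  intro U hU
  have h1 := (hu U hU).2
  by_cases h : up y ∈ U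
  · have h2 : up x ∈ U := Filter.mem_of_superset h (up_subset hx)
    simp only [emb, h, h2, if_true] at h1 ⊢
    exact h1
  · have h2 : up x ∉ U := hxF U (Finset.mem_filter.2 ⟨hU, h⟩)
    simp only [emb, h, h2, if_false] at h1 ⊢
    exact h1

theorem metaLindelof (S : Set Pt) (𝒰 : Set (Set S)) (hop : ∀ U ∈ 𝒰, IsOpen U)
    (hcov : ⋃₀ 𝒰 = Set.univ) :
    ∃ 𝒱 : Set (Set S), (∀ V ∈ 𝒱, IsOpen V) ∧ ⋃₀ 𝒱 = Set.univ ∧
      (∀ V ∈ 𝒱, ∃ U ∈ 𝒰, V ⊆ U) ∧
      ∀ x : S, {V | V ∈ 𝒱 ∧ x ∈ V}.Countable := by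
  have h1 : ∀ y : S, ∃ U ∈ 𝒰, y ∈ U := fun y => by
    have : y ∈ ⋃₀ 𝒰 := hcov ▸ Set.mem_univ y
    exact this
  choose G hG hyG using h1
  let V : S → Set S := fun y => G y ∩ Subtype.val ⁻¹' (down y.1)
  have hyV : ∀ y, y ∈ V y := fun y => ⟨hyG y, mem_down_self y.1⟩
  refine ⟨Set.range V, ?_, ?_, ?_, ?_⟩
  · rintro _ ⟨y, rfl⟩
    exact (hop _ (hG y)).inter ((isOpen_down y.1).preimage continuous_subtype_val)
  · exact Set.eq_univ_of_forall fun y => ⟨V y, ⟨y, rfl⟩, hyV y⟩
  · rintro _ ⟨y, rfl⟩
    exact ⟨G y, hG y, Set.inter_subset_left⟩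
  · intro x
    have h2 : {V' | V' ∈ Set.range V ∧ x ∈ V'} ⊆ V '' (Subtype.val ⁻¹' (up x.1)) := by
      rintro _ ⟨⟨y, rfl⟩, hx⟩
      exact ⟨y, hx.2, rfl⟩
    refine Set.Countable.mono h2 (Set.Countable.image ?_ _)
    exact (countable_up x.1).preimage Subtype.val_injective

theorem scattered (S : Set Pt) (hS : S.Nonempty) :
    ∃ x ∈ S, ∃ U : Set Pt, IsOpen U ∧ U ∩ S = {x} := by
  have wf : WellFounded (InvImage ((· < ·) : Om → Om → Prop) rk) :=
    InvImage.wf rk wellFounded_lt
  obtain ⟨y, hy, hmin⟩ := wf.has_min S hS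
  refine ⟨y, hy, down y, isOpen_down y, ?_⟩
  ext x
  constructor
  · rintro ⟨hx, hxS⟩
    rcases rk_of_mem_up hx with h | h
    · exact h.symm
    · exact absurd h (hmin x hxS)
  · intro h
    rw [Set.mem_singleton_iff.1 h]
    exact ⟨mem_down_self y, hy⟩

theorem up_node {r l : Om} {p : ℕ → Pt} (h : ∀ n, r < rk (p n)) :
    up (node r l p) = {node r l p} ∪ ⋃ n, up (p n) := by
  rw [up]
  congr 1
  ext z
  simp only [Set.mem_ofPred_eq, Set.mem_iUnion]
  constructor
  · exact fun hz => hz.2
  · rintro ⟨n, hn⟩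
    exact ⟨(h n).trans_le (rk_le_of_mem_up hn), n, hn⟩

theorem not_sigma_discrete :
    ¬ ∃ D : ℕ → Set Pt, (⋃ n, D n) = Set.univ ∧ ∀ n, DiscreteTopology (D n) := by
  classical
  rintro ⟨D, hD, hdisc⟩
  have h1 : ∀ x : Pt, ∃ n, x ∈ D n := fun x => by
    have : x ∈ ⋃ n, D n := hD ▸ Set.mem_univ x
    exact Set.mem_iUnion.1 this
  choose χ hχ using h1
  -- finite sets of ultrafilters isolating the points
  have h2 : ∀ y : Pt, ∃ F : Finset (Ultrafilter Pt), (∀ U ∈ F, up y ∉ U) ∧
      ∀ x ∈ down y, (∀ U ∈ F, up x ∉ U) → x ∈ D (χ y) → x = y := by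
    intro y
    have h3 : IsOpen ({⟨y, hχ y⟩} : Set (D (χ y))) := by
      have := hdisc (χ y)
      exact isOpen_discrete _
    obtain ⟨O, hO, hOy⟩ := isOpen_induced_iff.1 h3
    have hyO : y ∈ O := by
      have : (⟨y, hχ y⟩ : D (χ y)) ∈ Subtype.val ⁻¹' O := hOy ▸ Set.mem_singleton _
      exact this
    obtain ⟨F, hF1, hF2⟩ := exists_basic hO hyO
    refine ⟨F, hF1, fun x hx hxF hxD => ?_⟩
    have h4 : (⟨x, hxD⟩ : D (χ y)) ∈ ({⟨y, hχ y⟩} : Set (D (χ y))) := by
      rw [← hOy]
      exact hF2 x hx hxF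
    exact congrArg Subtype.val (Set.mem_singleton_iff.1 h4)
  choose F hF1 hF2 using h2
  -- unbounded colours
  let N : Set ℕ := {n | ∀ a : Om, ∃ x, χ x = n ∧ a < rk x}
  obtain ⟨r, hr⟩ : ∃ r : Om, ∀ x, r ≤ rk x → χ x ∈ N := by
    have h3 : ∀ n : ℕ, ∃ b : Om, n ∉ N → ∀ x, χ x = n → rk x ≤ b := by
      intro n
      by_cases hn : n ∈ N
      · exact ⟨Classical.arbitrary Om, fun h => absurd hn h⟩
      · have hn' : ¬ ∀ a : Om, ∃ x, χ x = n ∧ a < rk x := hn
        push Not at hn'
        obtain ⟨a, ha⟩ := hn'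
        exact ⟨a, fun _ => ha⟩
    choose b hb using h3
    obtain ⟨r, hr⟩ := exists_strict_bound (Set.countable_range b)
    refine ⟨r, fun x hx => ?_⟩
    by_contra hcon
    exact absurd (hb (χ x) hcon x rfl) (not_le.2 ((hr _ ⟨χ x, rfl⟩).trans_le hx))
  have hN : N.Nonempty := ⟨χ (leaf r r), hr _ le_rfl⟩
  obtain ⟨e, he⟩ := (Set.to_countable N).exists_eq_range hN
  obtain ⟨c, hc⟩ := exists_colour
  -- a long sequence of points
  obtain ⟨y, hy⟩ := exists_rec (X := Pt)
    (fun a y => χ y = e (c a) ∧ r < rk y) (fun x y => ∀ z ∈ up x, rk z < rk y) (by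
      intro a B hB
      have h3 : (rk '' (⋃ x ∈ B, up x) ∪ {r}).Countable :=
        ((hB.biUnion fun x _ => countable_up x).image _).union (Set.countable_singleton _)
      obtain ⟨s, hs⟩ := exists_strict_bound h3
      have h4 : e (c a) ∈ N := he ▸ ⟨c a, rfl⟩
      obtain ⟨y, hy1, hy2⟩ := h4 s
      refine ⟨y, ⟨hy1, (hs r (Or.inr rfl)).trans hy2⟩, fun x hx z hz => ?_⟩
      exact (hs _ (Or.inl ⟨z, Set.mem_biUnion hx hz, rfl⟩)).trans hy2)
  have hdisj : ∀ i j : Om, i ≠ j → Disjoint (up (y i)) (up (y j)) := by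
    have key : ∀ i j : Om, i < j → Disjoint (up (y i)) (up (y j)) := by
      intro i j hij
      rw [Set.disjoint_left]
      intro z hz1 hz2
      exact absurd ((hy j).2 i hij z hz1) (not_lt.2 (rk_le_of_mem_up hz2))
    intro i j hij
    rcases lt_or_gt_of_ne hij with h | h
    · exact key i j h
    · exact (key j i h).symm
  obtain ⟨s, hs1, hs2⟩ := core (T := fun i => up (y i)) hdisj (fun i => F (y i))
    (fun i U hU => hF1 _ U hU) (fun n => c ⁻¹' {n}) (by
      intro m n hmn
      rw [Set.disjoint_left]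
      intro a ha hb
      exact hmn (by rw [← Set.mem_singleton_iff.1 ha, ← Set.mem_singleton_iff.1 hb])) hc
  -- choose the label
  obtain ⟨l, hl⟩ : ∃ l : Om, ∀ m, ∀ U ∈ F (y (s m)),
      U ≠ pure (node r l fun n => y (s n)) := by
    have h5 : (⋃ m, ⋃ U ∈ (F (y (s m)) : Set (Ultrafilter Pt)),
        {l : Om | U = pure (node r l fun n => y (s n))}).Countable := by
      refine Set.countable_iUnion fun m => ?_
      refine ((F (y (s m))).finite_toSet.countable).biUnion fun U _ => ?_
      refine Set.Subsingleton.countable ?_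
      intro l hl l' hl'
      have h6 : (pure (node r l fun n => y (s n)) : Ultrafilter Pt)
          = pure (node r l' fun n => y (s n)) := by
        rw [← (show U = _ from hl), ← (show U = _ from hl')]
      have h7 := Ultrafilter.pure_injective h6
      injection h7
    by_contra hcon
    push Not at hcon
    apply not_countable_Om
    refine h5.mono fun l _ => ?_
    obtain ⟨m, U, hU, hUl⟩ := hcon l
    simp only [Set.mem_iUnion]
    exact ⟨m, U, hU, hUl⟩
  set x : Pt := node r l fun n => y (s n) with hx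
  have hupx : up x = {x} ∪ ⋃ n, up (y (s n)) := up_node fun n => (hy (s n)).1.2
  have hχx : χ x ∈ N := hr x le_rfl
  rw [he] at hχx
  obtain ⟨m, hm⟩ := hχx
  have h6 : x = y (s m) := by
    refine hF2 (y (s m)) x ?_ ?_ ?_
    · show y (s m) ∈ up x
      rw [hupx]
      exact Or.inr (Set.mem_iUnion.2 ⟨m, mem_up_self _⟩)
    · intro U hU hxU
      rw [hupx] at hxU
      rcases Ultrafilter.union_mem_iff.1 hxU with h7 | h7
      · apply hl m U hU
        exact Ultrafilter.coe_le_coe.1 (Filter.le_pure_iff.2 h7)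
      · exact hs2 m U hU h7
    · have h8 : χ (y (s m)) = χ x := by
        rw [(hy (s m)).1.1, ← hm]
        have : c (s m) = m := hs1 m
        rw [this]
      rw [h8]
      exact hχ x
  have h9 : r < rk x := by
    rw [h6]
    exact (hy (s m)).1.2
  exact lt_irrefl _ h9

end Pt

end Pool.Agent.Lib77.ML
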